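import Mathlib

/-!
# Vertical convexity is not inherited by subdisc images under the slit condition

A conformal map of the disc onto a three-quarter plane gives a normalised univalent `f` whose image
is convex in the direction of the imaginary axis, every component of `f(𝔻) ∖ ℝ` has `0` on its
boundary, and yet some `f({|z| < r})` is not convex in the direction of the imaginary axis.
-/

namespace Pool.Agent.Results.MP_d2819f_an.SubdiscImagesNotCIA

open Complex Metric Set Topology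

/-- Convexity in the direction of the imaginary axis: every vertical line meets `G` in a connected
(possibly empty) set. -/
def CIA (G : Set ℂ) : Prop := ∀ c : ℝ, IsPreconnected {w : ℂ | w ∈ G ∧ w.re = c}

/-- The slit condition: every connected component of `G ∖ ℝ` has `0` on its boundary. -/
def SlitCondition (G : Set ℂ) : Prop :=
  ∀ w ∈ G \ {w : ℂ | w.im = 0},
    (0 : ℂ) ∈ frontier (connectedComponentIn (G \ {w : ℂ | w.im = 0}) w)

/-- base point in the open first quadrant, of modulus one -/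
noncomputable def t0 : ℂ := ⟨40 / 41, 9 / 41⟩

/-- `u0 = t0²` -/
noncomputable def u0 : ℂ := ⟨1519 / 1681, 720 / 1681⟩

/-- Moebius map of the disc onto the upper half plane -/
noncomputable def U (z : ℂ) : ℂ :=
  (u0 + (starRingEnd ℂ) u0 * (starRingEnd ℂ) t0 * z) / (1 + (starRingEnd ℂ) t0 * z)

/-- conformal map of the disc onto the first quadrant -/
noncomputable def T (z : ℂ) : ℂ := (U z) ^ (1 / 2 : ℂ)

/-- the map onto the three-quarter plane -/
noncomputable def f (z : ℂ) : ℂ := (1681 / 2160 : ℂ) * (I * (T z ^ 3 - t0 ^ 3))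

theorem t0_sq : t0 ^ 2 = u0 := by
  unfold t0 u0
  apply Complex.ext
  · rw [pow_two]; simp; norm_num
  · rw [pow_two]; simp; norm_num

theorem t0_conj : t0 * (starRingEnd ℂ) t0 = 1 := by
  unfold t0
  apply Complex.ext
  · simp; norm_num
  · simp; norm_num

theorem norm_t0 : ‖t0‖ = 1 := by
  have h : ‖t0‖ ^ 2 = 1 := by
    rw [← normSq_eq_norm_sq, t0, normSq_mk]; norm_num
  nlinarith [norm_nonneg t0]

theorem den_ne {z : ℂ} (hz : ‖z‖ < 1) : 1 + (starRingEnd ℂ) t0 * z ≠ 0 := by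
  intro h
  have h1 : ‖(starRingEnd ℂ) t0 * z‖ = 1 := by
    have : (starRingEnd ℂ) t0 * z = -1 := by linear_combination h
    rw [this]; simp
  rw [norm_mul, norm_conj, norm_t0, one_mul] at h1
  linarith

theorem U_im {z : ℂ} (hz : ‖z‖ < 1) : 0 < (U z).im := by
  have h0 := den_ne hz
  set ζ := (starRingEnd ℂ) t0 * z with hζ
  have hζn : ‖ζ‖ < 1 := by rw [hζ, norm_mul, norm_conj, norm_t0, one_mul]; exact hz
  have hζ2 : ζ.re * ζ.re + ζ.im * ζ.im < 1 := by
    rw [← normSq_apply, normSq_eq_norm_sq]; nlinarith [norm_nonneg ζ]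
  have hn : 0 < normSq (1 + ζ) := normSq_pos.mpr h0
  have hU : U z = (u0 + (starRingEnd ℂ) u0 * ζ) / (1 + ζ) := by
    rw [U, hζ]; ring
  rw [hU, div_im, ← sub_div]
  apply div_pos _ hn
  simp only [u0, add_re, add_im, mul_re, mul_im, conj_re, conj_im, one_re, one_im]
  nlinarith

theorem sqrt_quad {u : ℂ} (hu : 0 < u.im) :
    0 < (u ^ (1 / 2 : ℂ)).re ∧ 0 < (u ^ (1 / 2 : ℂ)).im ∧ (u ^ (1 / 2 : ℂ)) ^ 2 = u := by
  have hu0 : u ≠ 0 := by intro h; rw [h] at hu; simp at hu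
  have hn : 0 < ‖u‖ := norm_pos_iff.mpr hu0
  have harg : 0 < arg u := by
    have h1 : 0 ≤ arg u := arg_nonneg_iff.mpr hu.le
    rcases h1.lt_or_eq with h | h
    · exact h
    · exfalso
      have := arg_eq_zero_iff.mp h.symm
      linarith [this.2]
  have harg2 : arg u < Real.pi := by
    rcases (arg_le_pi u).lt_or_eq with h | h
    · exact h
    · exfalso
      have := (arg_eq_pi_iff.mp h).2
      linarith
  have he : u ^ (1 / 2 : ℂ) = ((Real.exp (Real.log ‖u‖ / 2) : ℝ) : ℂ) *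
      ((Real.cos (arg u / 2) : ℝ) + (Real.sin (arg u / 2) : ℝ) * I) := by
    rw [cpow_def_of_ne_zero hu0, Complex.log, add_mul, exp_add]
    push_cast
    congr 1
    · congr 1; ring
    · rw [show (arg u : ℂ) * I * (1 / 2) = ((arg u : ℂ) / 2) * I by ring, exp_mul_I]
  have hc : 0 < Real.cos (arg u / 2) :=
    Real.cos_pos_of_mem_Ioo ⟨by linarith [Real.pi_pos], by linarith⟩
  have hs : 0 < Real.sin (arg u / 2) := Real.sin_pos_of_pos_of_lt_pi (by linarith) (by linarith)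
  refine ⟨?_, ?_, ?_⟩
  · rw [he, re_ofReal_mul]
    simp only [add_re, ofReal_re, mul_re, I_re, mul_zero, ofReal_im, I_im, mul_one, sub_self,
      add_zero]
    positivity
  · rw [he, im_ofReal_mul]
    simp only [add_im, ofReal_im, mul_im, ofReal_re, I_im, mul_one, I_re, mul_zero, add_zero,
      zero_add]
    positivity
  · rw [← cpow_nat_mul]
    norm_num

theorem T_spec {z : ℂ} (hz : ‖z‖ < 1) : 0 < (T z).re ∧ 0 < (T z).im ∧ T z ^ 2 = U z :=
  sqrt_quad (U_im hz)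

theorem quad_sq_inj {s t : ℂ} (hs : 0 < s.re) (ht : 0 < t.re) (h : s ^ 2 = t ^ 2) : s = t := by
  have : (s - t) * (s + t) = 0 := by linear_combination h
  rcases mul_eq_zero.mp this with h1 | h1
  · exact sub_eq_zero.mp h1
  · exfalso
    have := congrArg Complex.re h1
    simp at this
    linarith

theorem quad_cube_inj {s t : ℂ} (hs : 0 < s.re) (hs' : 0 < s.im) (ht : 0 < t.re) (ht' : 0 < t.im)
    (h : s ^ 3 = t ^ 3) : s = t := by
  have : (s - t) * (s ^ 2 + s * t + t ^ 2) = 0 := by linear_combination h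
  rcases mul_eq_zero.mp this with h1 | h1
  · exact sub_eq_zero.mp h1
  · exfalso
    have := congrArg Complex.im h1
    rw [pow_two, pow_two] at this
    simp only [add_im, mul_im, zero_im] at this
    nlinarith [mul_pos hs hs', mul_pos ht ht', mul_pos hs ht', mul_pos hs' ht]

/-- `U` is injective -/
theorem U_inj {z w : ℂ} (hz : ‖z‖ < 1) (hw : ‖w‖ < 1) (h : U z = U w) : z = w := by
  have h1 := den_ne hz
  have h2 := den_ne hw
  rw [U, U, div_eq_div_iff h1 h2] at h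
  have h3 : ((starRingEnd ℂ) u0 - u0) * (starRingEnd ℂ) t0 * (z - w) = 0 := by
    linear_combination h
  have h4 : (starRingEnd ℂ) u0 - u0 ≠ 0 := by
    intro h5
    have := congrArg Complex.im h5
    simp [u0] at this
    norm_num at this
  have h5 : (starRingEnd ℂ) t0 ≠ 0 := by
    intro h5
    have := t0_conj
    rw [h5] at this
    simp at this
  have := (mul_eq_zero.mp h3).resolve_left (mul_ne_zero h4 h5)
  exact sub_eq_zero.mp this

theorem f_inj : InjOn f (ball 0 1) := by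
  intro z hz w hw h
  have hz' : ‖z‖ < 1 := by simpa using hz
  have hw' : ‖w‖ < 1 := by simpa using hw
  obtain ⟨a1, a2, a3⟩ := T_spec hz'
  obtain ⟨b1, b2, b3⟩ := T_spec hw'
  have h1 : T z ^ 3 = T w ^ 3 := by
    have h2 : (1681 / 2160 : ℂ) * (I * (T z ^ 3 - T w ^ 3)) = 0 := by
      unfold f at h
      linear_combination h
    have h3 := (mul_eq_zero.mp h2).resolve_left (by norm_num)
    have h4 := (mul_eq_zero.mp h3).resolve_left I_ne_zero
    exact sub_eq_zero.mp h4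
  have h2 := quad_cube_inj a1 a2 b1 b2 h1
  apply U_inj hz' hw'
  rw [← a3, ← b3, h2]

theorem U_deriv {z : ℂ} (hz : ‖z‖ < 1) : HasDerivAt U
    ((starRingEnd ℂ) t0 * ((starRingEnd ℂ) u0 - u0) / (1 + (starRingEnd ℂ) t0 * z) ^ 2) z := by
  have h0 := den_ne hz
  have h1 := ((hasDerivAt_id' z).const_mul ((starRingEnd ℂ) u0 * (starRingEnd ℂ) t0)).const_add u0
  have h2 := ((hasDerivAt_id' z).const_mul ((starRingEnd ℂ) t0)).const_add 1
  exact (h1.fun_div h2 h0).congr_deriv (by congr 1; ring)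

theorem T_diff {z : ℂ} (hz : ‖z‖ < 1) : DifferentiableAt ℂ T z := by
  have h1 : U z ∈ slitPlane := Or.inr (U_im hz).ne'
  exact ((U_deriv hz).cpow_const (c := (1 / 2 : ℂ)) h1).differentiableAt

theorem T_zero : T 0 = t0 := by
  obtain ⟨a1, a2, a3⟩ := T_spec (z := 0) (by simp)
  apply quad_sq_inj a1
  · unfold t0; norm_num
  · rw [a3, t0_sq, U]; simp

theorem f_diff {z : ℂ} (hz : ‖z‖ < 1) : DifferentiableAt ℂ f z := by
  unfold f
  have := T_diff hz
  fun_prop

theorem f_deriv_zero : deriv f 0 = 1 := by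
  have hz : ‖(0 : ℂ)‖ < 1 := by simp
  have hT := (T_diff hz).hasDerivAt
  have hT2 : HasDerivAt (fun z => T z ^ 2) (2 * T 0 * deriv T 0) 0 :=
    (hT.fun_pow 2).congr_deriv (by norm_num)
  have hev : (fun z => T z ^ 2) =ᶠ[𝓝 0] U := by
    have hopen : IsOpen {w : ℂ | ‖w‖ < 1} := isOpen_lt continuous_norm continuous_const
    filter_upwards [hopen.mem_nhds hz] with x hx
    exact (T_spec hx).2.2
  have hU := (U_deriv hz).congr_of_eventuallyEq hev
  have e1 := hT2.unique hU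
  rw [T_zero] at e1
  have hf : HasDerivAt f ((1681 / 2160 : ℂ) * (I * (3 * T 0 ^ 2 * deriv T 0))) 0 := by
    have h := (((hT.fun_pow 3).sub_const (t0 ^ 3)).const_mul I).const_mul (1681 / 2160 : ℂ)
    exact h.congr_deriv (by norm_num)
  rw [hf.deriv, T_zero]
  have e2 : (starRingEnd ℂ) u0 - u0 = -(1440 / 1681 : ℂ) * I := by
    apply Complex.ext
    · simp [u0]
    · simp [u0]; norm_num
  rw [e2] at e1
  have e3 : (1 + (starRingEnd ℂ) t0 * 0) ^ 2 = (1 : ℂ) := by ring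
  rw [e3, div_one] at e1
  have h1 := t0_conj
  have h2 : 3 * t0 ^ 2 * deriv T 0 = (3 / 2) * t0 * (2 * t0 * deriv T 0) := by ring
  rw [h2, e1]
  have h3 : (1681 / 2160 : ℂ) * (I * ((3 / 2) * t0 * ((starRingEnd ℂ) t0 *
      (-(1440 / 1681) * I)))) = -(I * I) * (t0 * (starRingEnd ℂ) t0) := by ring
  rw [h3, h1, I_mul_I]
  norm_num

/-- the point of the disc over a point of the first quadrant -/
noncomputable def Z (t : ℂ) : ℂ := -(t0 * ((t ^ 2 - u0) / (t ^ 2 - (starRingEnd ℂ) u0)))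

theorem Z_spec {t : ℂ} (h1 : 0 < t.re) (h2 : 0 < t.im) :
    ‖Z t‖ ^ 2 = 1 - (2880 / 1681) * (2 * t.re * t.im) /
      ((t.re ^ 2 - t.im ^ 2 - 1519 / 1681) ^ 2 + (2 * t.re * t.im + 720 / 1681) ^ 2) ∧
    ‖Z t‖ < 1 ∧ T (Z t) = t := by
  have him : (t ^ 2).im = 2 * t.re * t.im := by rw [pow_two, mul_im]; ring
  have hre : (t ^ 2).re = t.re ^ 2 - t.im ^ 2 := by rw [pow_two, mul_re]; ring
  have hpos : 0 < t.re * t.im := mul_pos h1 h2
  have hne : t ^ 2 - (starRingEnd ℂ) u0 ≠ 0 := by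
    intro h
    have := congrArg Complex.im h
    rw [sub_im, him] at this
    simp [u0] at this
    nlinarith
  have hN : normSq (t ^ 2 - (starRingEnd ℂ) u0)
      = (t.re ^ 2 - t.im ^ 2 - 1519 / 1681) ^ 2 + (2 * t.re * t.im + 720 / 1681) ^ 2 := by
    rw [normSq_apply, sub_re, sub_im, him, hre]
    simp [u0]
    ring
  have hNpos : 0 < normSq (t ^ 2 - (starRingEnd ℂ) u0) := normSq_pos.mpr hne
  have hM : normSq (t ^ 2 - u0)
      = normSq (t ^ 2 - (starRingEnd ℂ) u0) - (2880 / 1681) * (2 * t.re * t.im) := by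
    rw [hN, normSq_apply, sub_re, sub_im, him, hre]
    simp [u0]
    ring
  have hz2 : ‖Z t‖ ^ 2 = 1 - (2880 / 1681) * (2 * t.re * t.im) /
      normSq (t ^ 2 - (starRingEnd ℂ) u0) := by
    rw [Z, norm_neg, norm_mul, norm_t0, one_mul, norm_div, div_pow, ← normSq_eq_norm_sq,
      ← normSq_eq_norm_sq, hM, sub_div, div_self hNpos.ne']
  have hz1 : ‖Z t‖ < 1 := by
    have : ‖Z t‖ ^ 2 < 1 := by
      rw [hz2]
      have : 0 < (2880 / 1681) * (2 * t.re * t.im) / normSq (t ^ 2 - (starRingEnd ℂ) u0) := by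
        positivity
      linarith
    nlinarith [norm_nonneg (Z t)]
  refine ⟨by rw [hz2, hN], hz1, ?_⟩
  obtain ⟨b1, b2, b3⟩ := T_spec hz1
  apply quad_sq_inj b1 h1
  rw [b3]
  have hd := den_ne hz1
  have hc := t0_conj
  have e1 : (starRingEnd ℂ) t0 * Z t = -((t ^ 2 - u0) / (t ^ 2 - (starRingEnd ℂ) u0)) := by
    rw [Z]
    linear_combination (-((t ^ 2 - u0) / (t ^ 2 - (starRingEnd ℂ) u0))) * hc
  have e2 : U (Z t) = (u0 + (starRingEnd ℂ) u0 * ((starRingEnd ℂ) t0 * Z t)) /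
      (1 + (starRingEnd ℂ) t0 * Z t) := by
    rw [U]; ring
  rw [e2, div_eq_iff hd, e1]
  field_simp
  ring

theorem t0_cube : t0 ^ 3 = ⟨54280 / 68921, 42471 / 68921⟩ := by
  unfold t0
  apply Complex.ext
  · rw [pow_succ, pow_two]; simp; norm_num
  · rw [pow_succ, pow_two]; simp; norm_num

theorem f_Z {t : ℂ} (h1 : 0 < t.re) (h2 : 0 < t.im) :
    (f (Z t)).re = (1681 / 2160) * (42471 / 68921 - t.im * (3 * t.re ^ 2 - t.im ^ 2)) ∧
    (f (Z t)).im = (1681 / 2160) * (t.re * (t.re ^ 2 - 3 * t.im ^ 2) - 54280 / 68921) := by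
  obtain ⟨-, -, h⟩ := Z_spec h1 h2
  rw [f, h, t0_cube]
  have e : (1681 / 2160 : ℂ) = ((1681 / 2160 : ℝ) : ℂ) := by push_cast; ring
  rw [e, re_ofReal_mul, im_ofReal_mul]
  have h3 : t ^ 3 = t * t * t := by ring
  rw [h3]
  constructor
  · simp
    ring
  · simp
    ring

/-- cube roots in the first quadrant -/
theorem exists_cube_root {v : ℂ} (hv : 0 < v.im ∨ v.re < 0) :
    ∃ t : ℂ, 0 < t.re ∧ 0 < t.im ∧ t ^ 3 = v := by
  have hpi := Real.pi_pos
  have hv0 : v ≠ 0 := by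
    rintro rfl
    simp at hv
  have hn : 0 < ‖v‖ := norm_pos_iff.mpr hv0
  obtain ⟨θ, hθ1, hθ2, hθ3⟩ : ∃ θ : ℝ, 0 < θ ∧ θ < 3 * Real.pi / 2 ∧
      exp (θ * I) = exp (arg v * I) := by
    by_cases h : 0 < arg v
    · exact ⟨arg v, h, by linarith [arg_le_pi v], rfl⟩
    · push Not at h
      refine ⟨arg v + 2 * Real.pi, by linarith [neg_pi_lt_arg v], ?_, ?_⟩
      · have hre : v.re < 0 := by
          rcases hv with h1 | h1
          · exfalso
            have h2 : 0 ≤ arg v := arg_nonneg_iff.mpr h1.le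
            have h3 : arg v = 0 := le_antisymm h h2
            have := (arg_eq_zero_iff.mp h3).2
            linarith
          · exact h1
        have h4 : ¬ |arg v| ≤ Real.pi / 2 := by
          rw [abs_arg_le_pi_div_two_iff]; linarith
        rw [abs_of_nonpos h] at h4
        push Not at h4
        linarith
      · push_cast
        rw [add_mul, exp_add, exp_two_pi_mul_I, mul_one]
  refine ⟨((‖v‖ ^ (1 / 3 : ℝ) : ℝ) : ℂ) * exp (((θ / 3 : ℝ) : ℂ) * I), ?_, ?_, ?_⟩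
  · rw [re_ofReal_mul, exp_ofReal_mul_I_re]
    exact mul_pos (Real.rpow_pos_of_pos hn _)
      (Real.cos_pos_of_mem_Ioo ⟨by linarith, by linarith⟩)
  · rw [im_ofReal_mul, exp_ofReal_mul_I_im]
    exact mul_pos (Real.rpow_pos_of_pos hn _)
      (Real.sin_pos_of_pos_of_lt_pi (by linarith) (by linarith))
  · rw [mul_pow, ← exp_nat_mul, ← ofReal_pow, ← Real.rpow_natCast, ← Real.rpow_mul hn.le]
    norm_num
    rw [show (3 : ℂ) * ((θ : ℂ) / 3 * I) = θ * I by ring, hθ3]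
    exact norm_mul_exp_arg_mul_I v

/-- the three-quarter plane -/
def Om : Set ℂ := {w | w.re < (1681 / 2160) * (42471 / 68921) ∨
  w.im < -((1681 / 2160) * (54280 / 68921))}

theorem f_image : f '' ball 0 1 = Om := by
  ext w
  constructor
  · rintro ⟨z, hz, rfl⟩
    have hz' : ‖z‖ < 1 := by simpa using hz
    obtain ⟨a1, a2, a3⟩ := T_spec hz'
    have hzZ : f z = f (Z (T z)) := by
      obtain ⟨-, h1, h2⟩ := Z_spec a1 a2
      rw [f, f, h2]
    have h := f_Z a1 a2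
    rw [hzZ]
    simp only [Om, mem_ofPred_eq]
    rw [h.1, h.2]
    set a := (T z).re
    set b := (T z).im
    by_cases hc : 0 < 3 * a ^ 2 - b ^ 2
    · left
      have : 0 < b * (3 * a ^ 2 - b ^ 2) := mul_pos a2 hc
      linarith
    · right
      push Not at hc
      have h3 : a ^ 2 - 3 * b ^ 2 < 0 := by nlinarith [mul_pos a1 a1]
      have : a * (a ^ 2 - 3 * b ^ 2) < 0 := mul_neg_of_pos_of_neg a1 h3
      linarith
  · intro hw
    set v : ℂ := ⟨(2160 / 1681) * w.im + 54280 / 68921, 42471 / 68921 - (2160 / 1681) * w.re⟩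
      with hv
    have hvV : 0 < v.im ∨ v.re < 0 := by
      rcases hw with h | h
      · left; rw [hv]; simp only; linarith
      · right; rw [hv]; simp only; linarith
    obtain ⟨t, h1, h2, h3⟩ := exists_cube_root hvV
    obtain ⟨-, h4, h5⟩ := Z_spec h1 h2
    refine ⟨Z t, by simpa using h4, ?_⟩
    rw [f, h5, h3, t0_cube, hv]
    have e : (1681 / 2160 : ℂ) = ((1681 / 2160 : ℝ) : ℂ) := by push_cast; ring
    rw [e]
    apply Complex.ext
    · rw [re_ofReal_mul]; simp; ring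
    · rw [im_ofReal_mul]; simp; ring

theorem Om_CIA : CIA Om := by
  intro c
  by_cases h : c < (1681 / 2160) * (42471 / 68921)
  · have e : {w : ℂ | w ∈ Om ∧ w.re = c} = {w : ℂ | w.re = c} := by
      ext w
      simp only [Om, mem_ofPred_eq]
      constructor
      · exact fun h => h.2
      · exact fun h1 => ⟨Or.inl (by rw [h1]; exact h), h1⟩
    rw [e]
    have hlin : IsLinearMap ℝ (fun w : ℂ => w.re) := ⟨fun x y => by simp, fun a x => by simp⟩
    exact (convex_hyperplane hlin c).isPreconnected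
  · have e : {w : ℂ | w ∈ Om ∧ w.re = c}
        = {w : ℂ | w.im < -((1681 / 2160) * (54280 / 68921))} ∩ {w : ℂ | w.re = c} := by
      ext w
      simp only [Om, mem_ofPred_eq, mem_inter_iff]
      constructor
      · rintro ⟨h1 | h1, h2⟩
        · rw [h2] at h1; exact absurd h1 h
        · exact ⟨h1, h2⟩
      · exact fun h1 => ⟨Or.inr h1.1, h1.2⟩
    rw [e]
    have hlin : IsLinearMap ℝ (fun w : ℂ => w.re) := ⟨fun x y => by simp, fun a x => by simp⟩
    have hlin2 : IsLinearMap ℝ (fun w : ℂ => w.im) := ⟨fun x y => by simp, fun a x => by simp⟩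
    exact ((convex_halfSpace_lt hlin2 _).inter (convex_hyperplane hlin c)).isPreconnected

theorem zero_mem_frontier_of {S : Set ℂ} {A : Set ℂ} {w : ℂ} (hA : IsPreconnected A)
    (hAS : A ⊆ S) (hw : w ∈ A) (h0 : (0 : ℂ) ∈ closure A) (h0S : (0 : ℂ) ∉ S) :
    (0 : ℂ) ∈ frontier (connectedComponentIn S w) := by
  have h1 : A ⊆ connectedComponentIn S w := hA.subset_connectedComponentIn hw hAS
  refine ⟨closure_mono h1 h0, fun h2 => ?_⟩
  exact h0S (connectedComponentIn_subset S w (interior_subset h2))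

theorem Om_slit : SlitCondition Om := by
  have hlin : IsLinearMap ℝ (fun w : ℂ => w.re) := ⟨fun x y => by simp, fun a x => by simp⟩
  have hlin2 : IsLinearMap ℝ (fun w : ℂ => w.im) := ⟨fun x y => by simp, fun a x => by simp⟩
  have h0 : (0 : ℂ) ∉ Om \ {w : ℂ | w.im = 0} := by
    rintro ⟨-, h⟩; exact h (by simp)
  -- approximating points
  have happ : ∀ σ : ℝ, Filter.Tendsto (fun n : ℕ => ((σ * (1 / ((n : ℝ) + 1)) : ℝ) : ℂ) * I)
      Filter.atTop (𝓝 0) := by
    intro σ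
    have h1 : Filter.Tendsto (fun n : ℕ => σ * (1 / ((n : ℝ) + 1))) Filter.atTop (𝓝 0) := by
      simpa using tendsto_one_div_add_atTop_nhds_zero_nat.const_mul σ
    have h2 := (Complex.continuous_ofReal.tendsto 0).comp h1
    simpa using h2.mul_const I
  rintro w ⟨hw, hwim⟩
  simp only [mem_ofPred_eq] at hwim
  rcases lt_or_gt_of_ne hwim with hneg | hpos
  · -- lower part
    set A : Set ℂ := ({w : ℂ | w.im < 0} ∩ {w : ℂ | w.re < (1681 / 2160) * (42471 / 68921)}) ∪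
      {w : ℂ | w.im < -((1681 / 2160) * (54280 / 68921))} with hA
    refine zero_mem_frontier_of (A := A) ?_ ?_ ?_ ?_ h0
    · refine IsPreconnected.union ⟨0, -1⟩ ?_ ?_
        ((convex_halfSpace_lt hlin2 _).inter (convex_halfSpace_lt hlin _)).isPreconnected
        (convex_halfSpace_lt hlin2 _).isPreconnected
      · constructor
        · simp only [mem_ofPred_eq]; norm_num
        · simp only [mem_ofPred_eq]; norm_num
      · simp only [mem_ofPred_eq]; norm_num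
    · rintro x (⟨h1, h2⟩ | h1)
      · exact ⟨Or.inl h2, fun h3 => by simp only [mem_ofPred_eq] at h1 h3; linarith⟩
      · exact ⟨Or.inr h1, fun h3 => by simp only [mem_ofPred_eq] at h1 h3; linarith⟩
    · rcases hw with h1 | h1
      · exact Or.inl ⟨hneg, h1⟩
      · exact Or.inr h1
    · refine mem_closure_of_tendsto (happ (-1)) (Filter.Eventually.of_forall fun n => ?_)
      left
      have : 0 < 1 / ((n : ℝ) + 1) := by positivity
      constructor
      · simp only [mem_ofPred_eq]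
        rw [im_ofReal_mul, I_im]; linarith
      · simp only [mem_ofPred_eq]
        rw [re_ofReal_mul, I_re]; norm_num
  · set A : Set ℂ := {w : ℂ | 0 < w.im} ∩ {w : ℂ | w.re < (1681 / 2160) * (42471 / 68921)} with hA
    refine zero_mem_frontier_of (A := A) ?_ ?_ ?_ ?_ h0
    · exact ((convex_halfSpace_gt hlin2 _).inter (convex_halfSpace_lt hlin _)).isPreconnected
    · rintro x ⟨h1, h2⟩
      exact ⟨Or.inl h2, fun h3 => by simp only [mem_ofPred_eq] at h1 h3; linarith⟩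
    · rcases hw with h1 | h1
      · exact ⟨hpos, h1⟩
      · exfalso; linarith
    · refine mem_closure_of_tendsto (happ 1) (Filter.Eventually.of_forall fun n => ?_)
      have : 0 < 1 / ((n : ℝ) + 1) := by positivity
      constructor
      · simp only [mem_ofPred_eq]
        rw [im_ofReal_mul, I_im]; linarith
      · simp only [mem_ofPred_eq]
        rw [re_ofReal_mul, I_re]; norm_num

/-- solving `b (3a² - b²) = 1/125` -/
theorem exists_b {a l h : ℝ} (hlh : l < h) (h1 : l * (3 * a ^ 2 - l ^ 2) < 1 / 125)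
    (h2 : 1 / 125 < h * (3 * a ^ 2 - h ^ 2)) : ∃ b, l < b ∧ b < h ∧
      b * (3 * a ^ 2 - b ^ 2) = 1 / 125 := by
  have hc : ContinuousOn (fun b : ℝ => b * (3 * a ^ 2 - b ^ 2)) (Icc l h) := by fun_prop
  obtain ⟨b, hb, hbe⟩ := intermediate_value_Ioo hlh.le hc (show (1 / 125 : ℝ) ∈ Ioo _ _ from ⟨h1, h2⟩)
  exact ⟨b, hb.1, hb.2, hbe⟩

theorem num1 {b : ℝ} (h1 : 43 / 1000 < b) (h2 : b < 432 / 10000) :
    1 - (2880 / 1681) * (2 * (1 / 4) * b) /
      (((1 / 4) ^ 2 - b ^ 2 - 1519 / 1681) ^ 2 + (2 * (1 / 4) * b + 720 / 1681) ^ 2)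
      < 1 - (2880 / 1681) * (1 / 50) := by
  have hb2 : b ^ 2 < (432 / 10000) ^ 2 := by nlinarith
  have q1 : ((1 / 4 : ℝ) ^ 2 - b ^ 2 - 1519 / 1681) ^ 2 ≤ (844 / 1000) ^ 2 := by
    apply sq_le_sq'
    · linarith
    · nlinarith [sq_nonneg b]
  have q2 : (2 * (1 / 4 : ℝ) * b + 720 / 1681) ^ 2 ≤ (451 / 1000) ^ 2 := by
    apply pow_le_pow_left₀ (by linarith); linarith
  have hpos : 0 < ((1 / 4 : ℝ) ^ 2 - b ^ 2 - 1519 / 1681) ^ 2
      + (2 * (1 / 4) * b + 720 / 1681) ^ 2 := by positivity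
  have h3 : (2880 / 1681 : ℝ) * (1 / 50) < (2880 / 1681) * (2 * (1 / 4) * b) /
      (((1 / 4) ^ 2 - b ^ 2 - 1519 / 1681) ^ 2 + (2 * (1 / 4) * b + 720 / 1681) ^ 2) := by
    rw [lt_div_iff₀ hpos]
    linarith
  linarith

theorem num3 {b : ℝ} (h1 : 32 / 10000 < b) (h2 : b < 33 / 10000) :
    1 - (2880 / 1681) * (2 * (9 / 10) * b) /
      (((9 / 10) ^ 2 - b ^ 2 - 1519 / 1681) ^ 2 + (2 * (9 / 10) * b + 720 / 1681) ^ 2)
      < 1 - (2880 / 1681) * (1 / 50) := by
  have hb2 : b ^ 2 < (33 / 10000) ^ 2 := by nlinarith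
  have q1 : ((9 / 10 : ℝ) ^ 2 - b ^ 2 - 1519 / 1681) ^ 2 ≤ (94 / 1000) ^ 2 := by
    apply sq_le_sq'
    · linarith
    · nlinarith [sq_nonneg b]
  have q2 : (2 * (9 / 10 : ℝ) * b + 720 / 1681) ^ 2 ≤ (435 / 1000) ^ 2 := by
    apply pow_le_pow_left₀ (by linarith); linarith
  have hpos : 0 < ((9 / 10 : ℝ) ^ 2 - b ^ 2 - 1519 / 1681) ^ 2
      + (2 * (9 / 10) * b + 720 / 1681) ^ 2 := by positivity
  have h3 : (2880 / 1681 : ℝ) * (1 / 50) < (2880 / 1681) * (2 * (9 / 10) * b) /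
      (((9 / 10) ^ 2 - b ^ 2 - 1519 / 1681) ^ 2 + (2 * (9 / 10) * b + 720 / 1681) ^ 2) := by
    rw [lt_div_iff₀ hpos]
    linarith
  linarith

theorem num2 {b : ℝ} (h1 : 106 / 10000 < b) (h2 : b < 107 / 10000) :
    1 - (2880 / 1681) * (1 / 50) < 1 - (2880 / 1681) * (2 * (1 / 2) * b) /
      (((1 / 2) ^ 2 - b ^ 2 - 1519 / 1681) ^ 2 + (2 * (1 / 2) * b + 720 / 1681) ^ 2) := by
  have q1 : (653 / 1000) ^ 2 ≤ ((1 / 2 : ℝ) ^ 2 - b ^ 2 - 1519 / 1681) ^ 2 := by
    have : ((1 / 2 : ℝ) ^ 2 - b ^ 2 - 1519 / 1681) ^ 2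
        = (1519 / 1681 + b ^ 2 - (1 / 2) ^ 2) ^ 2 := by ring
    rw [this]
    apply pow_le_pow_left₀ (by norm_num)
    nlinarith [sq_nonneg b]
  have q2 : (438 / 1000) ^ 2 ≤ (2 * (1 / 2 : ℝ) * b + 720 / 1681) ^ 2 := by
    apply pow_le_pow_left₀ (by norm_num); linarith
  have hpos : 0 < ((1 / 2 : ℝ) ^ 2 - b ^ 2 - 1519 / 1681) ^ 2
      + (2 * (1 / 2) * b + 720 / 1681) ^ 2 := by positivity
  have h3 : (2880 / 1681) * (2 * (1 / 2) * b) /
      (((1 / 2) ^ 2 - b ^ 2 - 1519 / 1681) ^ 2 + (2 * (1 / 2) * b + 720 / 1681) ^ 2)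
      < (2880 / 1681 : ℝ) * (1 / 50) := by
    rw [div_lt_iff₀ hpos]
    linarith
  linarith

theorem not_CIA : ∃ r : ℝ, 0 < r ∧ r < 1 ∧ ¬ CIA (f '' ball 0 r) := by
  obtain ⟨b1, hb1, hb1', e1⟩ := exists_b (a := 1 / 4) (l := 43 / 1000) (h := 432 / 10000)
    (by norm_num) (by norm_num) (by norm_num)
  obtain ⟨b2, hb2, hb2', e2⟩ := exists_b (a := 1 / 2) (l := 106 / 10000) (h := 107 / 10000)
    (by norm_num) (by norm_num) (by norm_num)
  obtain ⟨b3, hb3, hb3', e3⟩ := exists_b (a := 9 / 10) (l := 32 / 10000) (h := 33 / 10000)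
    (by norm_num) (by norm_num) (by norm_num)
  have p1 : 0 < (⟨1 / 4, b1⟩ : ℂ).re ∧ 0 < (⟨1 / 4, b1⟩ : ℂ).im :=
    ⟨by norm_num, by simp only; linarith⟩
  have p2 : 0 < (⟨1 / 2, b2⟩ : ℂ).re ∧ 0 < (⟨1 / 2, b2⟩ : ℂ).im :=
    ⟨by norm_num, by simp only; linarith⟩
  have p3 : 0 < (⟨9 / 10, b3⟩ : ℂ).re ∧ 0 < (⟨9 / 10, b3⟩ : ℂ).im :=
    ⟨by norm_num, by simp only; linarith⟩
  obtain ⟨n1, m1, -⟩ := Z_spec p1.1 p1.2
  obtain ⟨n2, m2, -⟩ := Z_spec p2.1 p2.2
  obtain ⟨n3, m3, -⟩ := Z_spec p3.1 p3.2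
  obtain ⟨r1, i1⟩ := f_Z p1.1 p1.2
  obtain ⟨r2, i2⟩ := f_Z p2.1 p2.2
  obtain ⟨r3, i3⟩ := f_Z p3.1 p3.2
  simp only at n1 n2 n3 r1 r2 r3 i1 i2 i3
  rw [e1] at r1
  rw [e2] at r2
  rw [e3] at r3
  have k1 := n1.trans_lt (num1 hb1 hb1')
  have k2 := (num2 hb2 hb2').trans_eq n2.symm
  have k3 := n3.trans_lt (num3 hb3 hb3')
  set z1 := Z ⟨1 / 4, b1⟩
  set z2 := Z ⟨1 / 2, b2⟩
  set z3 := Z ⟨9 / 10, b3⟩
  have h12 : ‖z1‖ < ‖z2‖ := lt_of_pow_lt_pow_left₀ 2 (norm_nonneg _) (k1.trans k2)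
  have h32 : ‖z3‖ < ‖z2‖ := lt_of_pow_lt_pow_left₀ 2 (norm_nonneg _) (k3.trans k2)
  refine ⟨‖z2‖, lt_of_le_of_lt (norm_nonneg _) h12, m2, ?_⟩
  intro hC
  have hpre := hC ((1681 / 2160) * (42471 / 68921 - 1 / 125))
  have w1 : f z1 ∈ {w : ℂ | w ∈ f '' ball 0 ‖z2‖ ∧ w.re = (1681 / 2160) * (42471 / 68921 - 1 / 125)} :=
    ⟨⟨z1, by simpa using h12, rfl⟩, r1⟩
  have w3 : f z3 ∈ {w : ℂ | w ∈ f '' ball 0 ‖z2‖ ∧ w.re = (1681 / 2160) * (42471 / 68921 - 1 / 125)} :=
    ⟨⟨z3, by simpa using h32, rfl⟩, r3⟩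
  have himg := hpre.image Complex.im continuous_im.continuousOn
  have hord := himg.ordConnected
  have hle : (f z2).im ∈ Icc (f z1).im (f z3).im := by
    rw [i1, i2, i3]
    constructor
    · nlinarith [sq_nonneg b1, sq_nonneg b2]
    · nlinarith [sq_nonneg b3, sq_nonneg b2]
  obtain ⟨w, ⟨⟨z, hz, hzw⟩, hwre⟩, hwim⟩ := hord.out ⟨_, w1, rfl⟩ ⟨_, w3, rfl⟩ hle
  have hzn : ‖z‖ < ‖z2‖ := by simpa using hz
  have hww : f z = f z2 := by
    apply Complex.ext
    · rw [hzw, hwre, r2]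
    · rw [hzw, hwim]
  have := f_inj (by simpa using hzn.trans m2) (by simpa using m2) hww
  rw [this] at hzn
  exact lt_irrefl _ hzn

/-- **Disproof of Q1.** There is a normalised univalent `f` on the unit disc with `f(𝔻)` convex in
the direction of the imaginary axis and every component of `f(𝔻) ∖ ℝ` having `0` on its boundary,
but with `f({|z| < r})` not convex in the direction of the imaginary axis for some `r ∈ (0,1)`. -/
theorem result : ∃ f : ℂ → ℂ, DifferentiableOn ℂ f (ball 0 1) ∧ InjOn f (ball 0 1) ∧ f 0 = 0 ∧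
    deriv f 0 = 1 ∧ CIA (f '' ball 0 1) ∧ SlitCondition (f '' ball 0 1) ∧
    ∃ r : ℝ, 0 < r ∧ r < 1 ∧ ¬ CIA (f '' ball 0 r) := by
  refine ⟨f, fun z hz => (f_diff (by simpa using hz)).differentiableWithinAt, f_inj, ?_,
    f_deriv_zero, ?_, ?_, not_CIA⟩
  · rw [f, T_zero, sub_self, mul_zero, mul_zero]
  · rw [f_image]; exact Om_CIA
  · rw [f_image]; exact Om_slit

end Pool.Agent.Results.MP_d2819f_an.SubdiscImagesNotCIA
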